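import Pool.Agent.Helper4.TL.Eps
import Pool.Agent.Helper76.S7.StC

/-!
# Project TL (level `4 * 7^n`): upper bound for new twisted symbols

Everything is `Helper76/S7/StC.lean` (project W7) with signs. The plane, the coordinates `Pl7`, `edge7`, the maps `ng`, `sw`, `c1`, `dl`, `c2`, `c3`, `c4`, `cO`, `dR`, the spaces `anti7`, `inv1`, `inv7` and the closed theorems PLA, PLU, REP, TYP, DIMK of W7 (`Pool.Agent.Helper43.S7.hPlA`, `Pool.Agent.Helper74.S7.hPlU`,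
`Pool.Agent.Helper22.S7.hRep`, `Pool.Agent.Helper42.S7.hTyp`, `Pool.Agent.Helper71.S7.hDimK`) are used unchanged. New: the value on a path is multiplied by `eps` of the standard matrix (`edgeE7`). RULE FOR REFLECTIONS. Let `val π = eps(g) (G(gu) - G(gv))` for the path `π` from `v` to `u` and `F_π(p)` the value at the
coordinates `p` of `g`. For an integral matrix `ρ` of negative odd determinant with `* ρ` or `b ρ` (`b` as in W7) in the group of the plane: `val(ρ π) = eps(ρ) F_π(p_ρ)`, `p_ρ` the image of `p` as in W7: in the `*` type because `G∘* ≈ G`, `eps(*) = 1`; in the `b` type because `G∘b ≈ -G`, `eps(b) = -1`; the same for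
the rotation `δ` (`G∘S ≈ -G`, `eps(S) = -1`) and for elements of the group. Signs: `*`: `+`; `b = (0 1; 1 0)`, `(0 1; 7 0)`: `-`; `c1 = (7 -8; 6 -7)`: `+`; `δ = (7 -10; 5 -7)`: `-`; `c2 = (7 -16; 3 -7)`: `-`; `c3 = (14 -39; 5 -14)`: `-`; `c4 = (7 -24; 2 -7)`: `+`; `(-1 7; 0 1)`, `(-1 1; 0 1)`: `-`;
`(7 -3; 14 -7)`: `-`; the rotation `α = (2 -1; 7 -3)` of order three: `+`. So, compared with W7, only the following change: `M∘c1 = M` (was `-M`), `l∘dR 0 = -l` (was `l`), and the square `∞, 3, 7/2, 4` gives `S - S∘c4 + S∘dR 1 - S∘dR 1∘c4 = 0`. The dimensions `90` (`m = 1`, even) and `12` (`m = 1`, odd) were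
checked by machine.
-/

set_option autoImplicit false

namespace Pool.Agent.Helper76.TL7

open Pool.Agent.Helper14.CV (Homog EqC act StFar)
open Pool.Agent.Helper76.S7
open Pool.Agent.Helper4.TL

/-- The value on a path, multiplied by the sign of the standard matrix. -/
noncomputable def edgeE7 {R : Type} [AddCommGroup R] (μ : ℕ) {q q' : ℕ} (u1 u2 v1 v2 : ℤ)
    (G : ℤ → ℤ → R) (x : ZMod q) (y : ZMod q') : R :=
  eps 1 (7 ^ μ * (x.val : ℤ)) (7 * rY7 μ x y) (1 + 7 ^ (μ + 1) * (x.val : ℤ) * rY7 μ x y) •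
    edge7 μ u1 u2 v1 v2 G x y

/-- EDGE7 (from PLA, PLU). Two matrices `g'`, `g` with the same coordinates: `g' = γ g`, `G(g'u) - G(g'v) = eps(γ) (G(gu) - G(gv))` and `eps(g') = eps(γ) eps(g)` (`eps_mul`; the determinants are `1`, not divisible by `2`). Models: `Pool/Agent/Helper33/S7/M_Edg.lean` and the module EDGE for the prime `5`
(`Pool/Agent/Helper52/TL/M_Edge.lean`, statement `Pool.Agent.Helper76.TL.StEEdg`). -/
def EEdg7 : Prop := ∀ (R : Type) (_ : AddCommGroup R) (μ r s : ℕ) (G : ℤ → ℤ → R),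
  SymE 7 (r + μ) (s + 1) G → ∀ (u1 u2 v1 v2 : ℤ), (u1 ≠ 0 ∨ u2 ≠ 0) → (v1 ≠ 0 ∨ v2 ≠ 0) →
  ∀ (x : ZMod (7 ^ r)) (y : ZMod (7 ^ s)) (a b c d : ℤ), Pl7 μ a b c d x y →
  edgeE7 μ u1 u2 v1 v2 G x y = eps a (7 ^ μ * b) (7 * c) d •
    (G (a * u1 + 7 ^ μ * b * u2) (7 * c * u1 + d * u2) - G (a * v1 + 7 ^ μ * b * v2) (7 * c * v1 + d * v2))

/-- EDGE7. -/
def StEEdg7 : Prop := S7PlA → S7PlU → EEdg7

/-- Balanced new twisted symbols, even exponent `n = 2k`. -/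
def BalEE7 (k : ℕ) (G : ℤ → ℤ → ℂ) : Prop :=
  SymE 7 k k G ∧ EqC (∑ i ∈ Finset.range 7, act 1 (2 * i * 7 ^ (k - 1)) 0 1 G) 0 ∧
    EqC (∑ i ∈ Finset.range 7, act 1 0 (2 * i * 7 ^ (k - 1)) 1 G) 0 ∧
    EqC (act 0 (-1) 1 0 G) (-G) ∧ EqC (act (-1) 0 0 1 G) G

/-- Balanced new twisted symbols, odd exponent `n = 2k+1`. -/
def BalOE7 (k : ℕ) (G : ℤ → ℤ → ℂ) : Prop :=
  SymE 7 k (k + 1) G ∧ EqC (∑ i ∈ Finset.range 7, act 1 (2 * i * 7 ^ (k - 1)) 0 1 G) 0 ∧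
    EqC (∑ i ∈ Finset.range 7, act 1 0 (2 * i * 7 ^ k) 1 G) 0 ∧
    EqC (act 0 (-1) 7 0 G) (-G) ∧ EqC (act (-1) 0 0 1 G) G

/-- BALE7. Transport to the balanced form by `(1 0; 0 7^k)`. Proof as `S7Bal` with `2i` in place of `i`; `(1 0; 0 7^k)` is congruent to the identity modulo `2`; for the first component use `SymE.act` (`Helper4/TL/Eps.lean`), which needs an odd determinant. Models: `Pool/Agent/Helper66/S7/M_Bal.lean` and the module BALE for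
the prime `5` (`Pool/Agent/Helper36/TL/M_Bale.lean`, statement `Pool.Agent.Helper76.TL.EBal`). -/
def EBal7 : Prop := ∀ (k : ℕ) (G : ℤ → ℤ → ℂ), 1 ≤ k →
  (NewSymE 7 (2 * k) G → BalEE7 k (act 1 0 0 (7 ^ k) G)) ∧
  (NewSymE 7 (2 * k + 1) G → BalOE7 k (act 1 0 0 (7 ^ k) G)) ∧
  (Homog G → EqC (act 1 0 0 (7 ^ k) G) 0 → EqC G 0)

/-- SPLE7. Every function of `anti7 m` (`m ≥ 1`) is the sum of one invariant under `ng` and one anti-invariant under `dR μ`. Proof: as `S7Split` (`a F = F∘ng`, `d F = F∘dR μ`, `T F = d (a F)`, `T^h F (x, y) = F (x + 7^(m-1), y)` for `h = 7^(m-1)`). `1 + T` is injective on `anti7 m`: `T g = -g` implies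
`T^h g = -g` (`h` is odd), so `g (x + i 7^(m-1), y) = (-1)^i g(x, y)`, and `i = 7` gives `g = -g`. So it is bijective. Let `(1 + T) f = (1 + d) φ`. Applying `d` (`d d = 1`, `d T = a`): `d f + a f = (1 + d) φ`, and `T a = d`: `(1 + T) a f = a f + d f = (1 + d) φ = (1 + T) f`, so `a f = f`;
`l = φ - f` satisfies `d l = d φ - d a f = d φ - ((1 + d) φ - f) = -l`. Models: `Pool/Agent/Helper36/S7/M_Split.lean` and the module SPLE for the prime `5` (`Pool/Agent/Helper33/TL/M_Sple.lean`, statement `Pool.Agent.Helper76.TL.ESplit`). -/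
def ESplit7 : Prop := ∀ (μ m : ℕ), 1 ≤ m → ∀ φ ∈ anti7 m, ∃ f ∈ anti7 m, ∃ l ∈ anti7 m,
  (∀ p, f (ng p) = f p) ∧ (∀ p, l (dR μ p) = -l p) ∧ ∀ p, f p + l p = φ p

/-- The target for even exponents: `((F1, M), (D, F3))`, the values on the paths `1 → ∞`, `4/3 → 1`, `2 → 4/3`, `3 → 2`. -/
def subEE7 (m : ℕ) : Submodule ℂ (((Pt m → ℂ) × (Pt m → ℂ)) × ((Pt m → ℂ) × (Pt m → ℂ))) where
  carrier := {F | (F.1.1 ∈ anti7 m ∧ F.1.2 ∈ anti7 m ∧ F.2.1 ∈ anti7 m ∧ F.2.2 ∈ anti7 m) ∧ ∀ p : Pt m,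
    F.1.1 p - F.1.1 (ng p) + F.1.1 (sw p) - F.1.1 (ng (sw p)) = 0 ∧
    F.1.2 (c1 p) - F.1.2 p = 0 ∧ F.2.1 (dl p) - F.2.1 p = 0 ∧
    F.2.2 p + F.2.2 (c2 p) + F.2.2 (c3 p) + F.2.2 (c2 (c3 p)) + F.2.2 (c3 (c2 p)) + F.2.2 (c2 (c3 (c2 p))) = 0 ∧
    (F.1.1 p + F.1.2 p + F.2.1 p + F.2.2 p) - (F.1.1 (c4 p) + F.1.2 (c4 p) + F.2.1 (c4 p) + F.2.2 (c4 p))
      + (F.1.1 (dR 1 p) + F.1.2 (dR 1 p) + F.2.1 (dR 1 p) + F.2.2 (dR 1 p))
      - (F.1.1 (dR 1 (c4 p)) + F.1.2 (dR 1 (c4 p)) + F.2.1 (dR 1 (c4 p)) + F.2.2 (dR 1 (c4 p))) = 0}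
  add_mem' := by
    rintro F F' ⟨⟨h0, h1, h2, h3⟩, h⟩ ⟨⟨h0', h1', h2', h3'⟩, h'⟩
    refine ⟨⟨(anti7 m).add_mem h0 h0', (anti7 m).add_mem h1 h1', (anti7 m).add_mem h2 h2', (anti7 m).add_mem h3 h3'⟩,
      fun p => ?_⟩
    obtain ⟨a1, a2, a3, a4, a5⟩ := h p
    obtain ⟨b1, b2, b3, b4, b5⟩ := h' p
    simp only [Prod.fst_add, Prod.snd_add, Pi.add_apply]
    exact ⟨by linear_combination a1 + b1, by linear_combination a2 + b2, by linear_combination a3 + b3,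
      by linear_combination a4 + b4, by linear_combination a5 + b5⟩
  zero_mem' := ⟨⟨(anti7 m).zero_mem, (anti7 m).zero_mem, (anti7 m).zero_mem, (anti7 m).zero_mem⟩, by intro p; simp⟩
  smul_mem' := by
    rintro c F ⟨⟨h0, h1, h2, h3⟩, h⟩
    refine ⟨⟨(anti7 m).smul_mem c h0, (anti7 m).smul_mem c h1, (anti7 m).smul_mem c h2, (anti7 m).smul_mem c h3⟩,
      fun p => ?_⟩
    obtain ⟨a1, a2, a3, a4, a5⟩ := h p
    simp only [Prod.smul_fst, Prod.smul_snd, Pi.smul_apply, smul_eq_mul]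
    exact ⟨by linear_combination c * a1, by linear_combination c * a2, by linear_combination c * a3,
      by linear_combination c * a4, by linear_combination c * a5⟩

/-- The target for odd exponents: `(f, l)`, the values on the paths `0 → ∞`, `1/2 → ∞`. -/
def subOE7 (m : ℕ) : Submodule ℂ ((Pt m → ℂ) × (Pt m → ℂ)) where
  carrier := {F | F.1 ∈ inv7 (m := m) ng sw 1 1 ∧ F.2 ∈ inv7 (m := m) (dR 0) cO (-1) 1 ∧ ∀ p : Pt m,
    (F.1 p - F.2 p) + (F.1 (sw (cO p)) - F.2 (sw (cO p))) + (F.1 (cO (sw p)) - F.2 (cO (sw p))) = 0}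
  add_mem' := by
    rintro F F' ⟨h0, h1, h⟩ ⟨h0', h1', h'⟩
    refine ⟨Submodule.add_mem _ h0 h0', Submodule.add_mem _ h1 h1', fun p => ?_⟩
    have a1 := h p
    have b1 := h' p
    simp only [Prod.fst_add, Prod.snd_add, Pi.add_apply]
    linear_combination a1 + b1
  zero_mem' := ⟨Submodule.zero_mem _, Submodule.zero_mem _, by intro p; simp⟩
  smul_mem' := by
    rintro c F ⟨h0, h1, h⟩
    refine ⟨Submodule.smul_mem _ c h0, Submodule.smul_mem _ c h1, fun p => ?_⟩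
    have a1 := h p
    simp only [Prod.smul_fst, Prod.smul_snd, Pi.smul_apply, smul_eq_mul]
    linear_combination c * a1

/-- The content of DIMEE7. -/
def EDimE7 : Prop := ∀ m : ℕ, 1 ≤ m →
  Module.finrank ℂ (subEE7 m) = 84 * 49 ^ (m - 1) + 6 * 7 ^ (m - 1)

/-- DIMEE7 (from TYP, DIMK, SPLE7). `V = anti7 m`, `a = 49^(m-1)`, `b = 7^(m-1)`, `dim V = 36 a`. `V1 = {F ∈ V | F - F∘ng + F∘sw - F∘ng∘sw = 0}` is the kernel on `V` of `4` times the projection onto `inv7 ng sw (-1) 1` (dimension `9 a`: types `0, 1, 1`), so `dim V1 = 27 a`; `M`: `dim (inv1 c1 1) = 18 a + 3 b`;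
`D`: `dim (inv1 dl 1) = 18 a + 3 b`; `V3 = {F ∈ V | sum over the dihedral group = 0}` is the kernel on `V` of `6` times the projection onto `inv7 c2 c3 1 1`, so `dim V3 = 30 a - 3 b` (as in W7). The map `(F1, M, D, F3) ↦ P (F1 + M + D + F3)`, `P F = F - F∘c4 + F∘dR 1 - F∘(dR 1)∘c4`, from `V1 × M × D × V3` to
`inv7 (dR 1) c4 1 (-1)` (types `0, 1, 1`, dimension `9 a - 3 b`) is onto: for `φ` in the target take `f + l = φ` by SPLE7 (`μ = 1`), `F1 = f` (in `V1`), the others `0`: `P l = 0` (`l∘dR 1 = -l`), so `P f = P φ = 4 φ`. Its kernel is `subEE7 m`, of dimension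
`27 a + (18 a + 3 b) + (18 a + 3 b) + (30 a - 3 b) - (9 a - 3 b) = 84 a + 6 b`. Model: `Pool/Agent/Helper37/S7/M_DimE.lean`. -/
def StEDimE7 : Prop := S7Typ → S7DimK → ESplit7 → EDimE7

/-- The content of DIMOE7. -/
def EDimO7 : Prop := ∀ m : ℕ, 1 ≤ m → Module.finrank ℂ (subOE7 m) = 12 * 49 ^ (m - 1)

/-- DIMOE7 (from TYP, DIMK, SPLE7). `Vf = inv7 ng sw 1 1` has dimension `9·49^(m-1) + 3·7^(m-1)`, `Vl = inv7 (dR 0) cO (-1) 1` (types `0, 1, 1`) has dimension `9·49^(m-1)`, `Vp = inv7 sw cO 1 1` has dimension `6·49^(m-1) + 3·7^(m-1)` (DIMK, dihedral). The map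
`(f, l) ↦ (f - l) + (f - l)∘sw∘cO + (f - l)∘cO∘sw` from `Vf × Vl` to `Vp` is onto: for `φ` in `Vp` let `f0 + l1 = φ` by SPLE7 (`μ = 0`), `l0 = -l1`, `f = (f0 + f0∘sw)/2`, `l = (l0 + l0∘cO)/2`; then `f` is in `Vf` (`ng` commutes with `sw`), `l` in `Vl` (`dR 0` commutes with `cO`), and the image is
`(1/2) ∑_κ (f0 - l0)∘κ = 3 φ`, `κ` in the dihedral group. Its kernel is `subOE7 m`. Model: `Pool/Agent/Helper88/S7/M_DimO.lean`. -/
def StEDimO7 : Prop := S7Typ → S7DimK → ESplit7 → EDimO7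

/-- The content of E1E7. -/
def EE17 : Prop := ∀ (k : ℕ) (G : ℤ → ℤ → ℂ), 2 ≤ k → BalEE7 k G →
  ((((fun p : Pt (k - 1) => edgeE7 1 1 0 1 1 G p.1 p.2), (fun p : Pt (k - 1) => edgeE7 1 1 1 4 3 G p.1 p.2)),
    ((fun p : Pt (k - 1) => edgeE7 1 4 3 2 1 G p.1 p.2), (fun p : Pt (k - 1) => edgeE7 1 2 1 3 1 G p.1 p.2))) ∈
    subEE7 (k - 1)) ∧
  ((∀ x y : ZMod (7 ^ (k - 1)), edgeE7 1 1 0 1 1 G x y = 0 ∧ edgeE7 1 1 1 4 3 G x y = 0 ∧
    edgeE7 1 4 3 2 1 G x y = 0 ∧ edgeE7 1 2 1 3 1 G x y = 0) → EqC G 0)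

/-- E1E7 (from EDGE7, PLA, TYP, REP, FAR). As `S7E1` with signs. (i) `anti7`: the translating matrices `(1 2i7^(k-1); 0 1)`, `(1 0; 2i7^(k-1) 1)` have `eps = 1`, `(.. ) g` has coordinates `(x + 2i7^(k-2), y)` etc. for standard `g` (`i ↦ 2i` is a bijection modulo `7`). (ii) The five equations by the rule of the head of
this file, `{u, v} = val` of the path from `v` to `u`. Square `∞, 1, 0, -1`: `{∞,1} = F1(p)`, `{∞,-1} = F1(ng p)`, `{0,1} = -F1(sw p)`, `{0,-1} = -F1(ng (sw p))`. Second: `(7 -8; 6 -7)` fixes `1` and `4/3` and has sign `+`: `M(p) = M(c1 p)`. Third: `δ` exchanges `2` and `4/3` and has sign `-`: `{2,4/3} = -D(dl p)`, so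
`D(dl p) = D(p)`. Fourth: the hexagon `2, 3, 11/4, 8/3, 13/5, 5/2` as in `S7E1` (`ρ2`, `ρ3` have sign `-`, as the factor `-1` of W7). Fifth: `S = F1 + M + D + F3 = {∞,3}`; square `∞, 3, 7/2, 4`: `{7/2,3} = S(c4 p)` (sign `+`), `{∞,4} = -S(dR 1 p)` (sign `-`), `{7/2,4} = -S(dR 1 (c4 p))`;
`{∞,3} - {7/2,3} + {7/2,4} - {∞,4} = 0`. (iii) Injectivity as `S7E1` (all `G(gu) = G(gv)`; no signs). Models: `Pool/Agent/Helper9/S7/M_E1.lean` and the module E1E for the prime `5` (`Pool/Agent/Helper63/TL/M_E1E.lean`, statement `Pool.Agent.Helper76.TL.StEE1`, when it exists). -/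
def StEE17 : Prop := EEdg7 → S7PlA → S7Typ → S7Rep → StFar → EE17

/-- The content of O1E7. -/
def EO17 : Prop := ∀ (k : ℕ) (G : ℤ → ℤ → ℂ), 1 ≤ k → BalOE7 k G →
  ((fun p : Pt k => edgeE7 0 1 0 0 1 G p.1 p.2), (fun p : Pt k => edgeE7 0 1 0 1 2 G p.1 p.2)) ∈ subOE7 k ∧
  ((∀ x y : ZMod (7 ^ k), edgeE7 0 1 0 0 1 G x y = 0 ∧ edgeE7 0 1 0 1 2 G x y = 0) → EqC G 0)

/-- O1E7 (from EDGE7, PLA, TYP, FAR). As `S7O1` with signs. `f = {∞,0}`: `f(ng p) = f(p)`; `(0 1; 7 0)` exchanges `0`, `∞` and has sign `-`: `-f(p) = -f(sw p)`. `l = {∞,½}`: `(-1 1; 0 1)` fixes `∞` and `½` and has sign `-`: `l(dR 0 p) = -l(p)`; `(7 -3; 14 -7)` exchanges `∞` and `½` and has sign `-`: `l(cO p) = l(p)`.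
`h = f - l = {½,0}`: the rotation `α = (2 -1; 7 -3)` of order three (sign `+`) maps `0 ↦ 1/3 ↦ 1/2 ↦ 0`: `h(p) + h(p α) + h(p α²) = 0`. Models: `Pool/Agent/Helper47/S7/M_O1.lean` and the module O1E for the prime `5` (`Pool/Agent/Helper87/TL/M_O1E.lean`, statement `Pool.Agent.Helper76.TL.StEO1`, when it exists). -/
def StEO17 : Prop := EEdg7 → S7PlA → S7Typ → StFar → EO17

/-- The bound for the dimension of the new twisted symbols of level `7^n`, `n ≥ 3` (levels `4 * 7^n`). -/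
def ddE7 (n : ℕ) : ℕ :=
  if n % 2 = 1 then 12 * 49 ^ (n / 2 - 1) else 84 * 49 ^ (n / 2 - 2) + 6 * 7 ^ (n / 2 - 2)

/-- UB. The space of new twisted symbols modulo constants has dimension at most `ddE7 n` (`n ≥ 3`). -/
def EUB7 : Prop := ∀ n : ℕ, 3 ≤ n → ∃ Θ : NSE 7 n →ₗ[ℂ] (Fin (ddE7 n) → ℂ),
  ∀ G : NSE 7 n, Θ G = 0 → EqC (G : ℤ → ℤ → ℂ) 0

/-- UBE7. Models: `Pool/Agent/Helper29/S7/M_UBof.lean` and the module UBE for the prime `5` (`Pool/Agent/Helper77/TL/M_Ube.lean`, statement `Pool.Agent.Helper76.TL.StEUB`). -/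
def StEUB7 : Prop := EBal7 → EE17 → EO17 → EDimE7 → EDimO7 → EUB7

end Pool.Agent.Helper76.TL7
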