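import Pool.Agent.Helper76.TL.Wo
import Pool.Agent.Helper14.TL7.StD

/-!
# Project TL, module BAS7: an integral family of twisted symbols with determinant prime to seven
-/

set_option autoImplicit false

namespace Pool.Agent.Helper76.TL7

open Pool.Agent.Helper14.CV (Homog EqC act Tl)
open Pool.Agent.Helper28.WK (Tw evw)
open Pool.Agent.Helper4.TL (eps SymE OkE)
open Pool.Agent.Helper93.TLE Pool.Agent.Helper79.TL Pool.Agent.Helper14.TL7
open Pool.Agent.Helper79.S7 (evc)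

namespace Bas7M

open Pool.Agent.Helper76.TL.Wo

private lemma wo_U {A : ∀ (R : Type) [AddCommGroup R], ℤ → (ℤ → ℤ → R) → (ℤ → ℤ → R)}
    (hA : WO 7 A) : WO 7 (fun _ _ m G => UoE m (A _ m G)) := by
  have h3 := wo_Tl 3 (by norm_num) (by norm_num) (by norm_num) hA
  exact wo_sub (wo_sub (wo_Tl 11 (by norm_num) (by norm_num) (by norm_num) hA)
    (wo_Tl 3 (by norm_num) (by norm_num) (by norm_num) h3)) (wo_smul 3 hA)

private lemma wo_V {A : ∀ (R : Type) [AddCommGroup R], ℤ → (ℤ → ℤ → R) → (ℤ → ℤ → R)}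
    (hA : WO 7 A) : WO 7 (fun _ _ m G => VoE m (A _ m G)) := by
  have h5 := wo_Tl 5 (by norm_num) (by norm_num) (by norm_num) hA
  have h11 := wo_Tl 11 (by norm_num) (by norm_num) (by norm_num) hA
  have h13 := wo_Tl 13 (by norm_num) (by norm_num) (by norm_num) hA
  have h29 := wo_Tl 29 (by norm_num) (by norm_num) (by norm_num) hA
  have h37 := wo_Tl 37 (by norm_num) (by norm_num) (by norm_num) hA
  have h43 := wo_Tl 43 (by norm_num) (by norm_num) (by norm_num) hA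
  exact wo_add (wo_add (wo_add (wo_add (wo_add (wo_smul 5 hA) h11) (wo_smul 5 h29)) (wo_smul 4 h37))
    (wo_smul 5 h43)) (wo_Tl 3 (by norm_num) (by norm_num) (by norm_num) (wo_add h13 (wo_smul 5 h5)))

private lemma wo_O (c : ℕ) {A : ∀ (R : Type) [AddCommGroup R], ℤ → (ℤ → ℤ → R) → (ℤ → ℤ → R)}
    (hA : WO 7 A) : WO 7 (fun _ _ m G => OoE c m (A _ m G)) := by
  have h3 := wo_Tl 3 (by norm_num) (by norm_num) (by norm_num) hA
  have h5 := wo_Tl 5 (by norm_num) (by norm_num) (by norm_num) hA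
  have h11 := wo_Tl 11 (by norm_num) (by norm_num) (by norm_num) hA
  have h13 := wo_Tl 13 (by norm_num) (by norm_num) (by norm_num) hA
  have h17 := wo_Tl 17 (by norm_num) (by norm_num) (by norm_num) hA
  have h19 := wo_Tl 19 (by norm_num) (by norm_num) (by norm_num) hA
  by_cases h0 : c = 0
  · simp only [OoE, h0, if_true]
    exact hA
  · by_cases h1 : c = 1
    · simp only [OoE, h1, if_true, one_ne_zero, if_false]
      exact wo_add h3 hA
    · by_cases h2 : c = 2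
      · simp only [OoE, h2, if_true, if_false, OfNat.ofNat_ne_zero, OfNat.ofNat_ne_one]
        exact wo_add h5 (wo_smul 4 h3)
      · simp only [OoE, h0, h1, h2, if_false]
        exact wo_add (wo_add (wo_add (wo_add (wo_add (wo_smul 3 hA) (wo_smul 2 h11)) h13) h17)
          (wo_smul 5 h19)) (wo_Tl 3 (by norm_num) (by norm_num) (by norm_num) h5)

end Bas7M

open Bas7M Pool.Agent.Helper76.TL.Wo in
/-- The value `evE` is an integer combination of values at words, the same for all groups. -/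
theorem evE_evc7 (c i j : ℕ) : ∃ C : List (ℤ × List ℕ), OkCE 7 C ∧
    ∀ (R : Type) [AddCommGroup R] (m : ℤ) (G : ℤ → ℤ → R), evE m G c i j = evc m C G :=
  wo_ev (wo_O c (wo_iter (B := fun _ _ m => UoE m) (fun _ h => wo_U h)
      (wo_iter (B := fun _ _ m => VoE m) (fun _ h => wo_V h) (wo_id 7) j) i))

namespace Bas7M

open Pool.Agent.Helper76.TL.Wo

private theorem inj7 {c i j c' i' j' : ℕ} (hc : c ≤ 3) (hc' : c' ≤ 3)
    (h1 : dgE c i j = dgE c' i' j') (h2 : rhE c i j = rhE c' i' j') :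
    c = c' ∧ i = i' ∧ j = j' := by
  unfold dgE aaE abE at h1
  unfold rhE abE at h2
  interval_cases c <;> interval_cases c' <;> simp only [reduceIte, Nat.reduceEqDiff,
    Nat.reduceLeDiff, OfNat.ofNat_ne_zero, one_ne_zero, OfNat.ofNat_ne_one, le_refl] at h1 h2 <;>
    omega

private theorem core (r s N n : ℕ) (I : Finset (ℕ × ℕ × ℕ))
    (hI : ∀ t ∈ I, t.1 ≤ 3 ∧ aaE t.1 + t.2.1 + 7 * t.2.2 < 7 ^ r ∧
      abE t.1 + t.2.1 + t.2.2 < 7 ^ s) (hN : I.card = N)
    (hn : r + (s + 1) = n) (hTri : TTri) (hLif : TLif) :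
    ∃ (G : Fin N → ℤ → ℤ → ℤ) (C : Fin N → List (ℤ × List ℕ)), (∀ k, SymE 7 0 n (G k)) ∧
      (∀ l, OkCE 7 (C l)) ∧ ¬ (7 : ℤ) ∣ Matrix.det (Matrix.of fun k l => evc 2 (C l) (G k)) := by
  choose Cw hCw hCe using evE_evc7
  have h1 : ∀ t : I, ∃ G : ℤ → ℤ → ℤ, SymE 7 0 n G ∧
      (((evc 2 (Cw t.1.1 t.1.2.1 t.1.2.2) G : ℤ) : ZMod 7) ≠ 0) ∧
      ∀ u : I, (((evc 2 (Cw u.1.1 u.1.2.1 u.1.2.2) G : ℤ) : ZMod 7) ≠ 0 →
        (dgE u.1.1 u.1.2.1 u.1.2.2 < dgE t.1.1 t.1.2.1 t.1.2.2 ∨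
        (dgE u.1.1 u.1.2.1 u.1.2.2 = dgE t.1.1 t.1.2.1 t.1.2.2 ∧
          rhE u.1.1 u.1.2.1 u.1.2.2 ≤ rhE t.1.1 t.1.2.1 t.1.2.2))) := by
    intro t
    obtain ⟨hc, ha, hb⟩ := hI t.1 t.2
    obtain ⟨g, hg, hg1, hg2⟩ := hTri r s t.1.1 t.1.2.1 t.1.2.2 hc ha hb
    obtain ⟨G, hG, hGe⟩ := hLif r s g hg
    have hs := sym_Gi (p := 7) (by norm_num) (by norm_num) hG
    rw [hn] at hs
    have hev : ∀ c i j, ((evc 2 (Cw c i j) (Gi 7 r G) : ℤ) : ZMod 7) = evE (2 * 7 ^ r) g c i j := by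
      intro c i j
      rw [evc_Gi (p := 7) (by norm_num) hG _ (hCw _ _ _), ← hCe]
      exact_mod_cast hGe c i j
    refine ⟨Gi 7 r G, hs, ?_, ?_⟩
    · rw [hev]
      exact hg1
    · intro u hij
      obtain ⟨hc', ha', hb'⟩ := hI u.1 u.2
      apply hg2 _ _ _ hc' ha' hb'
      rw [hev] at hij
      exact hij
  choose G hS hd hM using h1
  let M : Matrix I I ℤ := Matrix.of fun t u => evc 2 (Cw u.1.1 u.1.2.1 u.1.2.2) (G t)
  have hdet : ((M.det : ℤ) : ZMod 7) ≠ 0 := by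
    refine unit_det (by norm_num) (fun t : I => dgE t.1.1 t.1.2.1 t.1.2.2)
      (fun t : I => rhE t.1.1 t.1.2.1 t.1.2.2) (fun _ : I => 0) ?_ M
      (fun t => hd t) (fun t u htu => ?_)
    · intro t u h2 h3 _
      have h5 := inj7 (hI t.1 t.2).1 (hI u.1 u.2).1 h2 h3
      exact Subtype.ext (Prod.ext h5.1 (Prod.ext h5.2.1 h5.2.2))
    · rcases hM t u htu with h | h
      · exact Or.inl h
      · exact Or.inr ⟨h.1, rfl, h.2⟩
  let e : Fin N ≃ I := (I.equivFinOfCardEq hN).symm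
  refine ⟨fun k => G (e k), fun l => Cw (e l).1.1 (e l).1.2.1 (e l).1.2.2, fun k => hS (e k),
    fun l => hCw _ _ _, ?_⟩
  have h2 : (Matrix.of fun k l => evc 2 (Cw (e l).1.1 (e l).1.2.1 (e l).1.2.2) (G (e k))) =
      M.submatrix e e := rfl
  rw [h2, Matrix.det_submatrix_equiv_self]
  intro h3
  exact hdet ((ZMod.intCast_zmod_eq_zero_iff_dvd _ 7).2 (by exact_mod_cast h3))

end Bas7M

open Bas7M in
/-- BAS for the prime seven. -/
theorem hBas7 : TTri → TLif → TCnt → BasE 7 3 ddE7 := by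
  intro hTri hLif hCnt n hn
  rcases Nat.even_or_odd' n with ⟨k, hk | hk⟩
  · subst hk
    refine core k (k - 1) _ _ _ ?_ (hCnt.1 k (by omega)) (by omega) hTri hLif
    intro t ht
    have h := Finset.mem_filter.1 ht
    have h0 := Finset.mem_range.1 (Finset.mem_product.1 h.1).1
    exact ⟨by omega, h.2.1, h.2.2⟩
  · subst hk
    refine core k k _ _ _ ?_ (hCnt.2 k (by omega)) (by omega) hTri hLif
    intro t ht
    have h := Finset.mem_filter.1 ht
    have h0 := Finset.mem_range.1 (Finset.mem_product.1 h.1).1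
    exact ⟨by omega, h.2.1, h.2.2⟩

end Pool.Agent.Helper76.TL7
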