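import Pool.Agent.Helper10.W3.M_Trq
import Pool.Agent.Helper21.TL.M_O1E7
import Pool.Agent.Helper22.S7.M_Rep
import Pool.Agent.Helper76.TL.M_DIMEE7
import Pool.Agent.Helper38.CV.M_Far
import Pool.Agent.Helper42.S7.M_Typ
import Pool.Agent.Helper43.S7.M_PlA
import Pool.Agent.Helper68.TL.M_UBE7
import Pool.Agent.Helper71.S7.M_DimK
import Pool.Agent.Helper74.S7.M_PlU
import Pool.Agent.Helper8.TL.M_EDGE7
import Pool.Agent.Helper80.TL.M_E1E7
import Pool.Agent.Helper85.TL.M_DIMOE7
import Pool.Agent.Helper86.TL.M_SPLE7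
import Pool.Agent.Helper93.TLE.StB7
import Pool.Agent.Helper94.TL.M_BALE7

/-!
# Project TL: the upper bound for the new twisted symbols of level `7^n`, assembled
-/

set_option autoImplicit false

namespace Pool.Agent.Helper76.TL7

/-- Values on translated paths. -/
theorem edg7 : EEdg7 := Pool.Agent.Helper8.TL.hEdgE7 Pool.Agent.Helper43.S7.hPlA Pool.Agent.Helper74.S7.hPlU

/-- The upper bound for the prime 7. -/
theorem eub7 : EUB7 := by
  have typ := Pool.Agent.Helper42.S7.hTyp
  have dimK := Pool.Agent.Helper71.S7.hDimK Pool.Agent.Helper10.W3.hTrq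
  have split := Pool.Agent.Helper86.TL.hSplE7
  exact Pool.Agent.Helper68.TL.hUBE7 Pool.Agent.Helper94.TL.hBalE7
    (Pool.Agent.Helper80.TL.hE1E7 edg7 Pool.Agent.Helper43.S7.hPlA typ Pool.Agent.Helper22.S7.hRep
      Pool.Agent.Helper38.CV.hFar)
    (Pool.Agent.Helper21.TL.hO1E7 edg7 Pool.Agent.Helper43.S7.hPlA typ Pool.Agent.Helper38.CV.hFar)
    (hDimEE7 typ dimK split) (Pool.Agent.Helper85.TL.hDimOE7 typ dimK split)

/-- The upper bound for the prime 7, in the form used in the dimension count. -/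
theorem ube7 : Pool.Agent.Helper93.TLE.UBE 7 Pool.Agent.Helper93.TLE.ddE7 := eub7

end Pool.Agent.Helper76.TL7
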