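import Pool.Agent.Helper76.TL.Wo
import Pool.Agent.Helper4.TL.StD

/-!
# Project TL, module BAS: an integral family of twisted symbols with determinant prime to five
-/

set_option autoImplicit false

namespace Pool.Agent.Helper76.TL

open Pool.Agent.Helper14.CV (Homog EqC act Tl)
open Pool.Agent.Helper28.WK (Tw evw)
open Pool.Agent.Helper4.TL Pool.Agent.Helper93.TLE Pool.Agent.Helper79.TL
open Pool.Agent.Helper79.S7 (evc)

namespace Bas5M

open Pool.Agent.Helper76.TL.Wo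

private lemma wo_U {A : ∀ (R : Type) [AddCommGroup R], ℤ → (ℤ → ℤ → R) → (ℤ → ℤ → R)}
    (hA : WO 5 A) : WO 5 (fun R _ m G => UoE m (A R m G)) := by
  have h3 := wo_Tl 3 (by norm_num) (by norm_num) (by norm_num) hA
  exact wo_add (wo_Tl 3 (by norm_num) (by norm_num) (by norm_num) h3) hA

private lemma wo_V {A : ∀ (R : Type) [AddCommGroup R], ℤ → (ℤ → ℤ → R) → (ℤ → ℤ → R)}
    (hA : WO 5 A) : WO 5 (fun R _ m G => VoE m (A R m G)) := by
  have h7 := wo_Tl 7 (by norm_num) (by norm_num) (by norm_num) hA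
  exact wo_sub (wo_sub (wo_Tl 7 (by norm_num) (by norm_num) (by norm_num) h7)
    (wo_smul 2 (wo_Tl 3 (by norm_num) (by norm_num) (by norm_num) h7))) (wo_smul 2 hA)

private lemma wo_O {A : ∀ (R : Type) [AddCommGroup R], ℤ → (ℤ → ℤ → R) → (ℤ → ℤ → R)}
    (hA : WO 5 A) : WO 5 (fun R _ m G => OoE m (A R m G)) := by
  have h3 := wo_Tl 3 (by norm_num) (by norm_num) (by norm_num) hA
  exact wo_sub (wo_sub (wo_Tl 3 (by norm_num) (by norm_num) (by norm_num) h3) h3) hA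

end Bas5M

open Bas5M Pool.Agent.Helper76.TL.Wo in
/-- The value `evE` is an integer combination of values at words, the same for all groups. -/
theorem evE_evc (c i j : ℕ) : ∃ C : List (ℤ × List ℕ), OkCE 5 C ∧
    ∀ (R : Type) [AddCommGroup R] (m : ℤ) (G : ℤ → ℤ → R), evE m G c i j = evc m C G :=
  wo_ev (wo_iter (B := fun R _ m => OoE m) (fun _ h => wo_O h)
    (wo_iter (B := fun R _ m => UoE m) (fun _ h => wo_U h)
      (wo_iter (B := fun R _ m => VoE m) (fun _ h => wo_V h) (wo_id 5) j) i) c)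

namespace Bas5M

open Pool.Agent.Helper76.TL.Wo

private theorem core (r s N n : ℕ) (I : Finset (ℕ × ℕ × ℕ))
    (hI : ∀ t ∈ I, t.1 ≤ 1 ∧ t.2.1 + 5 * t.2.2 + 2 * t.1 < 5 ^ r ∧
      t.2.1 + t.2.2 < 5 ^ s) (hN : I.card = N)
    (hn : r + (s + 1) = n) (hTri : TTri) (hLif : TLif) :
    ∃ (G : Fin N → ℤ → ℤ → ℤ) (C : Fin N → List (ℤ × List ℕ)), (∀ k, SymE 5 0 n (G k)) ∧
      (∀ l, OkCE 5 (C l)) ∧ ¬ (5 : ℤ) ∣ Matrix.det (Matrix.of fun k l => evc 2 (C l) (G k)) := by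
  choose Cw hCw hCe using evE_evc
  have h1 : ∀ t : I, ∃ G : ℤ → ℤ → ℤ, SymE 5 0 n G ∧
      (((evc 2 (Cw t.1.1 t.1.2.1 t.1.2.2) G : ℤ) : ZMod 5) ≠ 0) ∧
      ∀ c i j, c ≤ 1 → (((evc 2 (Cw c i j) G : ℤ) : ZMod 5) ≠ 0 →
        (2 * i + 6 * j + 2 * c < 2 * t.1.2.1 + 6 * t.1.2.2 + 2 * t.1.1 ∨
        (2 * i + 6 * j + 2 * c = 2 * t.1.2.1 + 6 * t.1.2.2 + 2 * t.1.1 ∧ c = t.1.1 ∧
          i + j ≤ t.1.2.1 + t.1.2.2))) := by
    intro t
    obtain ⟨hc, ha, hb⟩ := hI t.1 t.2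
    obtain ⟨g, hg, hg1, hg2⟩ := hTri r s t.1.1 t.1.2.1 t.1.2.2 hc ha hb
    obtain ⟨G, hG, hGe⟩ := hLif r s g hg
    have hs := sym_Gi (p := 5) (by norm_num) (by norm_num) hG
    rw [hn] at hs
    have hev : ∀ c i j, ((evc 2 (Cw c i j) (Gi 5 r G) : ℤ) : ZMod 5) = evE (2 * 5 ^ r) g c i j := by
      intro c i j
      rw [evc_Gi (p := 5) (by norm_num) hG _ (hCw _ _ _), ← hCe]
      exact_mod_cast hGe c i j
    refine ⟨Gi 5 r G, hs, ?_, ?_⟩
    · rw [hev]
      exact hg1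
    · intro c i j hc1 hij
      apply hg2 c i j hc1
      rw [hev] at hij
      exact hij
  choose G hS hd hM using h1
  let M : Matrix I I ℤ := Matrix.of fun t u => evc 2 (Cw u.1.1 u.1.2.1 u.1.2.2) (G t)
  have hdet : ((M.det : ℤ) : ZMod 5) ≠ 0 := by
    refine unit_det Nat.prime_five (fun t : I => 2 * t.1.2.1 + 6 * t.1.2.2 + 2 * t.1.1)
      (fun t : I => t.1.2.1 + t.1.2.2) (fun t : I => t.1.1) ?_ M
      (fun t => hd t) (fun t u htu => hM t _ _ _ (hI u.1 u.2).1 htu)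
    intro t u h2 h3 h4
    apply Subtype.ext
    apply Prod.ext
    · exact h4
    · apply Prod.ext
      · omega
      · omega
  let e : Fin N ≃ I := (I.equivFinOfCardEq hN).symm
  refine ⟨fun k => G (e k), fun l => Cw (e l).1.1 (e l).1.2.1 (e l).1.2.2, fun k => hS (e k),
    fun l => hCw _ _ _, ?_⟩
  have h2 : (Matrix.of fun k l => evc 2 (Cw (e l).1.1 (e l).1.2.1 (e l).1.2.2) (G (e k))) =
      M.submatrix e e := rfl
  rw [h2, Matrix.det_submatrix_equiv_self]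
  intro h3
  exact hdet ((ZMod.intCast_zmod_eq_zero_iff_dvd _ 5).2 (by exact_mod_cast h3))

end Bas5M

open Bas5M in
/-- BAS for the prime five. -/
theorem hBas5 : TTri → TLif → TCnt → BasE 5 2 ddE5 := by
  intro hTri hLif hCnt n hn
  rcases Nat.even_or_odd' n with ⟨k, hk | hk⟩
  · subst hk
    refine core k (k - 1) _ _ _ ?_ (hCnt.1 k (by omega)) (by omega) hTri hLif
    intro t ht
    have h := Finset.mem_filter.1 ht
    have h0 := Finset.mem_range.1 (Finset.mem_product.1 h.1).1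
    exact ⟨by omega, h.2.1, h.2.2⟩
  · subst hk
    refine core k k _ _ _ ?_ (hCnt.2 k (by omega)) (by omega) hTri hLif
    intro t ht
    have h := Finset.mem_filter.1 ht
    have h0 := Finset.mem_range.1 (Finset.mem_product.1 h.1).1
    exact ⟨by omega, h.2.1, h.2.2⟩

end Pool.Agent.Helper76.TL
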