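import Pool.Agent.Helper10.W3.M_Trq
import Pool.Agent.Helper10.W5.M_PlU
import Pool.Agent.Helper33.TL.M_SPLE
import Pool.Agent.Helper36.TL.M_BALE
import Pool.Agent.Helper38.CV.M_Far
import Pool.Agent.Helper46.TL.M_DIMOE
import Pool.Agent.Helper48.TL.M_DIMEE
import Pool.Agent.Helper52.TL.M_EDGE
import Pool.Agent.Helper63.TL.M_E1E
import Pool.Agent.Helper63.W5.M_PlA
import Pool.Agent.Helper7.W5.M_DimK
import Pool.Agent.Helper71.W5.M_Typ
import Pool.Agent.Helper77.TL.M_UBE
import Pool.Agent.Helper87.TL.M_O1E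
import Pool.Agent.Helper93.TLE.Defs
import Pool.Agent.Helper93.TLE.StB

/-!
# Project TL: the upper bound for the new twisted symbols of level `5^n`, assembled
-/

set_option autoImplicit false

namespace Pool.Agent.Helper76.TL

/-- Values on translated paths. -/
theorem edg5 : EEdg := Pool.Agent.Helper52.TL.hEdgE Pool.Agent.Helper63.W5.hPlA Pool.Agent.Helper10.W5.hPlU

/-- The upper bound for the prime 5. -/
theorem eub5 : EUB := by
  have typ := Pool.Agent.Helper71.W5.hTyp
  have dimK := Pool.Agent.Helper7.W5.hDimK Pool.Agent.Helper10.W3.hTrq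
  have split := Pool.Agent.Helper33.TL.hSplE
  exact Pool.Agent.Helper77.TL.hUBE Pool.Agent.Helper36.TL.hBalE
    (Pool.Agent.Helper63.TL.hE1E edg5 Pool.Agent.Helper63.W5.hPlA typ Pool.Agent.Helper38.CV.hFar)
    (Pool.Agent.Helper87.TL.hO1E edg5 Pool.Agent.Helper63.W5.hPlA typ Pool.Agent.Helper38.CV.hFar)
    (Pool.Agent.Helper48.TL.hDimEE typ dimK split) (Pool.Agent.Helper46.TL.hDimOE typ dimK split)

/-- The upper bound for the prime 5, in the form used in the dimension count. -/
theorem ube5 : Pool.Agent.Helper93.TLE.UBE 5 Pool.Agent.Helper93.TLE.ddE5 := eub5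

end Pool.Agent.Helper76.TL
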