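import Pool.Agent.Helper4.TL.Eps
import Pool.Agent.Helper14.W5.StC

/-!
# Project TL (level `4 * 5^n`): upper bound for new twisted symbols

Everything is `Helper14/W5/StC.lean` with signs. The plane, the coordinates `Pl5`, `edge5`, the maps `ng`, `sw`, `c1`, `c2`, `c3`, `cO`, `dR`, the spaces `anti5`, `inv5` and the closed theorems PLA, PLU, TYP, DIMK of W5 (`Pool.Agent.Helper63.W5.hPlA`, `Pool.Agent.Helper10.W5.hPlU`, `Pool.Agent.Helper71.W5.hTyp`,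
`Pool.Agent.Helper7.W5.hDimK`) are used unchanged. New: the value on a path is multiplied by `eps` of the standard matrix (`edgeE`). RULE FOR REFLECTIONS. Let `val π = eps(g) (G(gu) - G(gv))` for the path `π` from `v` to `u` and `F_π(p)` the value at the coordinates `p` of `g`. For an integral matrix `ρ` of negative odd
determinant with `* ρ` or `b ρ` (`b` as in W5) in the group of the plane: `val(ρ π) = eps(ρ) F_π(p_ρ)`, `p_ρ` the image of `p` as in W5: in the `*` type because `G∘* ≈ G`, `eps(*) = 1`; in the `b` type because `G∘b ≈ -G`, `eps(b) = -1`. Signs: `*`: `+`, `b = (0 1; 1 0)`, `(0 1; 5 0)`: `-`, `(5 -6; 4 -5)`: `+`,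
`(5 -8; 3 -5)`: `-`, `(5 -12; 2 -5)`: `+`, `(-1 5; 0 1)`, `(-1 1; 0 1)`: `-`, `(5 -2; 10 -5)`: `+`, `(2 -1; 5 -2)`: `-`. The dimensions `22` (`m = 1`, even) and `6` (`m = 1`, odd) were checked by machine.
-/

set_option autoImplicit false

namespace Pool.Agent.Helper76.TL

open Pool.Agent.Helper14.CV (Homog EqC act StFar)
open Pool.Agent.Helper14.W5
open Pool.Agent.Helper4.TL

/-- The value on a path, multiplied by the sign of the standard matrix. -/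
noncomputable def edgeE {R : Type} [AddCommGroup R] (μ : ℕ) {q q' : ℕ} (u1 u2 v1 v2 : ℤ)
    (G : ℤ → ℤ → R) (x : ZMod q) (y : ZMod q') : R :=
  eps 1 (5 ^ μ * (x.val : ℤ)) (5 * rY5 μ x y) (1 + 5 ^ (μ + 1) * (x.val : ℤ) * rY5 μ x y) •
    edge5 μ u1 u2 v1 v2 G x y

/-- EDGE (from PLA, PLU). Two matrices `g'`, `g` with the same coordinates: `g' = γ g`, `G(g'u) - G(g'v) = eps(γ) (G(gu) - G(gv))` and `eps(g') = eps(γ) eps(g)` (`eps_mul`; the determinants are `1`, not divisible by `2`). Model: `Pool/Agent/Helper36/W5/M_Edg.lean`. -/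
def EEdg : Prop := ∀ (R : Type) (_ : AddCommGroup R) (μ r s : ℕ) (G : ℤ → ℤ → R),
  SymE 5 (r + μ) (s + 1) G → ∀ (u1 u2 v1 v2 : ℤ), (u1 ≠ 0 ∨ u2 ≠ 0) → (v1 ≠ 0 ∨ v2 ≠ 0) →
  ∀ (x : ZMod (5 ^ r)) (y : ZMod (5 ^ s)) (a b c d : ℤ), Pl5 μ a b c d x y →
  edgeE μ u1 u2 v1 v2 G x y = eps a (5 ^ μ * b) (5 * c) d •
    (G (a * u1 + 5 ^ μ * b * u2) (5 * c * u1 + d * u2) - G (a * v1 + 5 ^ μ * b * v2) (5 * c * v1 + d * v2))

/-- EDGE. -/
def StEEdg : Prop := S5PlA → S5PlU → EEdg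

/-- Balanced new twisted symbols, even exponent `n = 2k`. -/
def BalEE (k : ℕ) (G : ℤ → ℤ → ℂ) : Prop :=
  SymE 5 k k G ∧ EqC (∑ i ∈ Finset.range 5, act 1 (2 * i * 5 ^ (k - 1)) 0 1 G) 0 ∧
    EqC (∑ i ∈ Finset.range 5, act 1 0 (2 * i * 5 ^ (k - 1)) 1 G) 0 ∧
    EqC (act 0 (-1) 1 0 G) (-G) ∧ EqC (act (-1) 0 0 1 G) G

/-- Balanced new twisted symbols, odd exponent `n = 2k+1`. -/
def BalOE (k : ℕ) (G : ℤ → ℤ → ℂ) : Prop :=
  SymE 5 k (k + 1) G ∧ EqC (∑ i ∈ Finset.range 5, act 1 (2 * i * 5 ^ (k - 1)) 0 1 G) 0 ∧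
    EqC (∑ i ∈ Finset.range 5, act 1 0 (2 * i * 5 ^ k) 1 G) 0 ∧
    EqC (act 0 (-1) 5 0 G) (-G) ∧ EqC (act (-1) 0 0 1 G) G

/-- BALE. Transport to the balanced form by `(1 0; 0 5^k)`. Proof as `S5Bal` with `2i` in place of `i`; `(1 0; 0 5^k)` is congruent to the identity modulo `2`; for the first component use `SymE.act` (`Helper4/TL/Eps.lean`), which needs an odd determinant. Model: `Pool/Agent/Helper42/W5/M_Bal.lean`. -/
def EBal : Prop := ∀ (k : ℕ) (G : ℤ → ℤ → ℂ), 1 ≤ k →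
  (NewSymE 5 (2 * k) G → BalEE k (act 1 0 0 (5 ^ k) G)) ∧
  (NewSymE 5 (2 * k + 1) G → BalOE k (act 1 0 0 (5 ^ k) G)) ∧
  (Homog G → EqC (act 1 0 0 (5 ^ k) G) 0 → EqC G 0)

/-- SPLE. Every function of `anti5 m` (`m ≥ 1`) is the sum of one invariant under `ng` and one anti-invariant under `dR μ`. Proof: as `S5Split` (`a F = F∘ng`, `d F = F∘dR μ`, `T F = d (a F)`, `T^h F (x, y) = F (x + 5^(m-1), y)` for `h = 5^(m-1)`). `1 + T` is injective on `anti5 m`: `T g = -g` implies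
`T^h g = -g` (`h` is odd), so `g (x + i 5^(m-1), y) = (-1)^i g(x, y)`, and `i = 5` gives `g = -g`. So it is bijective. Let `(1 + T) f = (1 + d) φ`. Applying `d` (`d d = 1`, `d T = a`): `d f + a f = (1 + d) φ`, and `T a = d`: `(1 + T) a f = a f + d f = (1 + d) φ = (1 + T) f`, so `a f = f`;
`l = φ - f` satisfies `d l = d φ - d a f = d φ - ((1 + d) φ - f) = -l`. Model: `Pool/Agent/Helper99/W5/M_Split.lean`. -/
def ESplit : Prop := ∀ (μ m : ℕ), 1 ≤ m → ∀ φ ∈ anti5 m, ∃ f ∈ anti5 m, ∃ l ∈ anti5 m,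
  (∀ p, f (ng p) = f p) ∧ (∀ p, l (dR μ p) = -l p) ∧ ∀ p, f p + l p = φ p

/-- The target for even exponents. -/
def subEE (m : ℕ) : Submodule ℂ ((Pt m → ℂ) × (Pt m → ℂ)) where
  carrier := {F | F.1 ∈ anti5 m ∧ F.2 ∈ anti5 m ∧ ∀ p : Pt m,
    F.1 p - F.1 (ng p) + F.1 (sw p) - F.1 (ng (sw p)) = 0 ∧
    F.2 p - F.2 (c1 p) + F.2 (c2 p) - F.2 (c1 (c2 p)) = 0 ∧
    (F.1 p + F.2 p) - (F.1 (c3 p) + F.2 (c3 p)) + (F.1 (dR 1 p) + F.2 (dR 1 p)) -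
      (F.1 (dR 1 (c3 p)) + F.2 (dR 1 (c3 p))) = 0}
  add_mem' := by
    rintro F F' ⟨h0, h1, h⟩ ⟨h0', h1', h'⟩
    refine ⟨(anti5 m).add_mem h0 h0', (anti5 m).add_mem h1 h1', fun p => ?_⟩
    obtain ⟨a1, a2, a3⟩ := h p
    obtain ⟨b1, b2, b3⟩ := h' p
    simp only [Prod.fst_add, Prod.snd_add, Pi.add_apply]
    exact ⟨by linear_combination a1 + b1, by linear_combination a2 + b2,
      by linear_combination a3 + b3⟩
  zero_mem' := ⟨(anti5 m).zero_mem, (anti5 m).zero_mem, by intro p; simp⟩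
  smul_mem' := by
    rintro c F ⟨h0, h1, h⟩
    refine ⟨(anti5 m).smul_mem c h0, (anti5 m).smul_mem c h1, fun p => ?_⟩
    obtain ⟨a1, a2, a3⟩ := h p
    simp only [Prod.smul_fst, Prod.smul_snd, Pi.smul_apply, smul_eq_mul]
    exact ⟨by linear_combination c * a1, by linear_combination c * a2, by linear_combination c * a3⟩

/-- The target for odd exponents. -/
def subOE (m : ℕ) : Submodule ℂ ((Pt m → ℂ) × (Pt m → ℂ)) where
  carrier := {F | F.1 ∈ inv5 (m := m) ng sw 1 1 ∧ F.2 ∈ inv5 (m := m) (dR 0) cO (-1) (-1) ∧ ∀ p : Pt m,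
    (F.1 p - F.2 p) - (F.1 (sw (cO p)) - F.2 (sw (cO p))) = 0}
  add_mem' := by
    rintro F F' ⟨h0, h1, h⟩ ⟨h0', h1', h'⟩
    refine ⟨Submodule.add_mem _ h0 h0', Submodule.add_mem _ h1 h1', fun p => ?_⟩
    have a1 := h p
    have b1 := h' p
    simp only [Prod.fst_add, Prod.snd_add, Pi.add_apply]
    linear_combination a1 + b1
  zero_mem' := ⟨Submodule.zero_mem _, Submodule.zero_mem _, by intro p; simp⟩
  smul_mem' := by
    rintro c F ⟨h0, h1, h⟩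
    refine ⟨Submodule.smul_mem _ c h0, Submodule.smul_mem _ c h1, fun p => ?_⟩
    have a1 := h p
    simp only [Prod.smul_fst, Prod.smul_snd, Pi.smul_apply, smul_eq_mul]
    linear_combination c * a1

/-- The content of DIMEE. -/
def EDimE : Prop := ∀ m : ℕ, 1 ≤ m →
  Module.finrank ℂ (subEE m) = 20 * 25 ^ (m - 1) + 2 * 5 ^ (m - 1)

/-- DIMEE (from TYP, DIMK, SPLE). `V = anti5 m`. `V1 = {F ∈ V | F - F∘ng + F∘sw - F∘ng∘sw = 0}` (`inv5 ng sw (-1) 1` has dimension `4·25^(m-1)`), so `dim V1 = 12·25^(m-1)`; `V2 = {F ∈ V | F - F∘c1 + F∘c2 - F∘c1∘c2 = 0}` (`inv5 c1 c2 (-1) 1` has dimension `4·25^(m-1)`: types `1, 1, 0`), so `dim V2 = 12·25^(m-1)`.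
The map `(F1, F2) ↦ P3 (F1 + F2)`, `P3 F = F + F∘dR 1 - F∘c3 - F∘(dR 1)∘c3`, from `V1 × V2` to `inv5 (dR 1) c3 1 (-1)` (types `0, 1, 1`, dimension `4·25^(m-1) - 2·5^(m-1)`) is onto: for `φ` in the target take `f + l = φ` by SPLE (`μ = 1`), `F1 = f` (in `V1`), `F2 = 0`: `P3 l = 0` (`l∘dR 1 = -l`), so `P3 f = P3 φ = 4 φ`. Its
kernel is `subEE m`. Model: `Pool/Agent/Helper86/W5/M_DimE.lean`. -/
def StEDimE : Prop := S5Typ → S5DimK → ESplit → EDimE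

/-- The content of DIMOE. -/
def EDimO : Prop := ∀ m : ℕ, 1 ≤ m →
  Module.finrank ℂ (subOE m) = 4 * 25 ^ (m - 1) + 2 * 5 ^ (m - 1)

/-- DIMOE (from TYP, DIMK, SPLE). `Vf = inv5 ng sw 1 1` has dimension `4·25^(m-1) + 2·5^(m-1)`, `Vl = inv5 (dR 0) cO (-1) (-1)` (types `0, 1, 1`) has dimension `4·25^(m-1)`, `Vp = inv5 sw cO 1 (-1)` (types `1, 1, 0`) has dimension `4·25^(m-1)`. The map `(f, l) ↦ (f - l) - (f - l)∘sw∘cO` from `Vf × Vl` to `Vp` (for `f∘sw = f` it is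
`f - f∘cO`; for `l∘cO = -l` the part of `l` is `-(l + l∘sw)`) is onto: for `φ` in `Vp` let `f0 + l1 = φ` by SPLE (`μ = 0`), `l0 = -l1`, `f = (f0 + f0∘sw)/2`, `l = (l0 - l0∘cO)/2`; the image is
`(1/2) (ψ + ψ∘sw - ψ∘cO - ψ∘sw∘cO) = 2 φ`, `ψ = f0 - l0 = φ`. Its kernel is `subOE m`. Model: `Pool/Agent/Helper29/W5/M_DimO.lean`. -/
def StEDimO : Prop := S5Typ → S5DimK → ESplit → EDimO

/-- The content of E1E. -/
def EE1 : Prop := ∀ (k : ℕ) (G : ℤ → ℤ → ℂ), 2 ≤ k → BalEE k G →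
  ((fun p : Pt (k - 1) => edgeE 1 1 0 1 1 G p.1 p.2), (fun p : Pt (k - 1) => edgeE 1 1 1 2 1 G p.1 p.2)) ∈
    subEE (k - 1) ∧
  ((∀ x y : ZMod (5 ^ (k - 1)), edgeE 1 1 0 1 1 G x y = 0 ∧ edgeE 1 1 1 2 1 G x y = 0) → EqC G 0)

/-- E1E (from EDGE, PLA, TYP, FAR). As `S5E1` with signs. (i) `anti5`: the translating matrices `(1 2i5^(k-1); 0 1)`, `(1 0; 2i5^(k-1) 1)` have `eps = 1`, `(.. ) g` has coordinates `(x + 2i5^(k-2), y)` etc. for standard `g` (`i ↦ 2i` is a bijection modulo `5`). (ii) The three equations by the rule of the head of this file: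
square `∞, 1, 0, -1`: `{∞,1} = F1(p)`, `{∞,-1} = F1(ng p)`, `{0,1} = -F1(sw p)`, `{0,-1} = -F1(ng (sw p))`; square `1, 2, 3/2, 4/3`: `{1,2} = F2(p)`, `{1,4/3} = F2(c1 p)`, `{3/2,2} = -F2(c2 p)`, `{3/2,4/3} = -F2(c1 (c2 p))`; square `∞, 2, 5/2, 3`, `F3 = F1 + F2`: `{∞,2} = F3(p)`,
`{5/2,2} = F3(c3 p)`, `{∞,3} = -F3(dR 1 p)`, `{5/2,3} = -F3(dR 1 (c3 p))`. (iii) Injectivity as `S5E1` (all `G(gu) = G(gv)`; no signs). Model: `Pool/Agent/Helper34/W5/M_E1.lean`. -/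
def StEE1 : Prop := EEdg → S5PlA → S5Typ → StFar → EE1

/-- The content of O1E. -/
def EO1 : Prop := ∀ (k : ℕ) (G : ℤ → ℤ → ℂ), 1 ≤ k → BalOE k G →
  ((fun p : Pt k => edgeE 0 1 0 0 1 G p.1 p.2), (fun p : Pt k => edgeE 0 1 0 1 2 G p.1 p.2)) ∈ subOE k ∧
  ((∀ x y : ZMod (5 ^ k), edgeE 0 1 0 0 1 G x y = 0 ∧ edgeE 0 1 0 1 2 G x y = 0) → EqC G 0)

/-- O1E (from EDGE, PLA, TYP, FAR). As `S5O1` with signs. `f = {∞,0}`: `f(ng p) = f(p)`, `f(sw p) = f(p)`; `l = {∞,½}`: `l(dR 0 p) = -l(p)`, `l(cO p) = -l(p)`; `h = f - l = {½,0}`: `h(trp 0 2 (-1) 1 (-2) p) = h(p)` (`(2 -1; 5 -2)` swaps `0` and `½` and has sign `-1`). Model: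
`Pool/Agent/Helper98/W5/M_O1.lean`. -/
def StEO1 : Prop := EEdg → S5PlA → S5Typ → StFar → EO1

/-- The bound for the dimension of the new twisted symbols of level `5^n`, `n ≥ 3` (levels `4 * 5^n`). -/
def ddE (n : ℕ) : ℕ :=
  if n % 2 = 1 then 4 * 25 ^ (n / 2 - 1) + 2 * 5 ^ (n / 2 - 1)
  else 20 * 25 ^ (n / 2 - 2) + 2 * 5 ^ (n / 2 - 2)

/-- UB. The space of new twisted symbols modulo constants has dimension at most `ddE n` (`n ≥ 3`). -/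
def EUB : Prop := ∀ n : ℕ, 3 ≤ n → ∃ Θ : NSE 5 n →ₗ[ℂ] (Fin (ddE n) → ℂ),
  ∀ G : NSE 5 n, Θ G = 0 → EqC (G : ℤ → ℤ → ℂ) 0

/-- UBE. Model: `Pool/Agent/Helper62/W5/M_UBof.lean`. -/
def StEUB : Prop := EBal → EE1 → EO1 → EDimE → EDimO → EUB

end Pool.Agent.Helper76.TL
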