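import Pool.Agent.Helper79.TL.StE

/-!
# Project TL: transport of integral twisted symbols and operators given by words, for every odd prime
-/

set_option autoImplicit false

namespace Pool.Agent.Helper76.TL.Wo

open Pool.Agent.Helper14.CV (Homog EqC act Tl)
open Pool.Agent.Helper28.WK (Tw evw)
open Pool.Agent.Helper4.TL Pool.Agent.Helper93.TLE Pool.Agent.Helper79.TL
open Pool.Agent.Helper79.S7 (evc)

/-! ### transport of an integral symbol -/

/-- The potential `G(p^r x, y)`. -/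
def Gi (p r : ℕ) (G : ℤ → ℤ → ℤ) : ℤ → ℤ → ℤ := fun x y => G ((p : ℤ) ^ r * x) y

private lemma ppos {p : ℕ} (hp : 0 < p) (r : ℕ) : ((p : ℤ) ^ r) ≠ 0 :=
  pow_ne_zero r (by exact_mod_cast hp.ne')

private lemma p_or {p : ℕ} (hp : 0 < p) (r : ℕ) {x y : ℤ} (h : x ≠ 0 ∨ y ≠ 0) :
    ((p : ℤ) ^ r * x ≠ 0 ∨ y ≠ 0) := by
  rcases h with h0 | h0
  · exact Or.inl (mul_ne_zero (ppos hp r) h0)
  · exact Or.inr h0

private lemma even_sub {p : ℕ} (hp2 : ¬ 2 ∣ p) (r : ℕ) (b : ℤ) : (2 : ℤ) ∣ b - (p : ℤ) ^ r * b := by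
  have h0 : Odd (p : ℤ) := by
    rw [Int.odd_iff]
    omega
  obtain ⟨t, ht⟩ := h0.pow (n := r)
  rw [ht]
  exact ⟨-(t * b), by ring⟩

theorem sym_Gi {p : ℕ} (hp : 0 < p) (hp2 : ¬ 2 ∣ p) {r s : ℕ} {G : ℤ → ℤ → ℤ} (h : SymE p r s G) :
    SymE p 0 (r + s) (Gi p r G) := by
  refine ⟨?_, ?_⟩
  · intro k x y hk hxy
    have e := h.1 k ((p : ℤ) ^ r * x) y hk (p_or hp r hxy)
    have e1 : (p : ℤ) ^ r * (k * x) = k * ((p : ℤ) ^ r * x) := by ring
    simp only [Gi]
    rw [e1, e]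
  · intro a b c d hdet _ hc
    obtain ⟨c', hc'⟩ := hc
    obtain ⟨k, hk⟩ := h.2 a ((p : ℤ) ^ r * b) ((p : ℤ) ^ s * c') d
      (by rw [← hdet, hc', pow_add]; ring) (Dvd.intro _ rfl) (Dvd.intro _ rfl)
    have he : eps a b c d = eps a ((p : ℤ) ^ r * b) ((p : ℤ) ^ s * c') d := by
      refine eps_mod (by rw [sub_self]; exact dvd_zero _) (even_sub hp2 r b) ?_
        (by rw [sub_self]; exact dvd_zero _)
      have h1 := even_sub hp2 r ((p : ℤ) ^ s * c')
      have e : c - (p : ℤ) ^ s * c' = -((p : ℤ) ^ s * c' - (p : ℤ) ^ r * ((p : ℤ) ^ s * c')) := by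
        rw [hc', pow_add]; ring
      rw [e]
      exact (dvd_neg).2 h1
    refine ⟨k, ?_⟩
    intro x y hxy
    have e := hk ((p : ℤ) ^ r * x) y (p_or hp r hxy)
    simp only [act, Gi, Pi.smul_apply] at e ⊢
    have e1 : (p : ℤ) ^ r * (a * x + b * y) = a * ((p : ℤ) ^ r * x) + (p : ℤ) ^ r * b * y := by ring
    have e2 : c * x + d * y = (p : ℤ) ^ s * c' * ((p : ℤ) ^ r * x) + d * y := by
      rw [hc', pow_add]
      ring
    rw [e1, e2, he]
    exact e

private lemma Tl_Gi (p l r : ℕ) (G : ℤ → ℤ → ℤ) :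
    Tl l 2 (Gi p r G) = Gi p r (Tl l (2 * (p : ℤ) ^ r) G) := by
  funext x y
  simp only [Tl, Gi]
  congr 1
  · congr 1
    ring
  · refine Finset.sum_congr rfl ?_
    intro j _
    congr 1
    ring

private lemma homog_Tl {G : ℤ → ℤ → ℤ} (l : ℕ) (hl : 0 < l) (m : ℤ) (h : Homog G) :
    Homog (Tl l m G) := by
  intro k p q hk hpq
  have hl0 : (l : ℤ) ≠ 0 := by exact_mod_cast hl.ne'
  simp only [Tl]
  congr 1
  · have e := h k (l * p) q hk (by
      rcases hpq with h0 | h0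
      · exact Or.inl (mul_ne_zero hl0 h0)
      · exact Or.inr h0)
    rw [← e]
    congr 1
    ring
  · refine Finset.sum_congr rfl ?_
    intro j _
    have e := h k (p + m * j * q) (l * q) hk (by
      by_cases hq : q = 0
      · left
        rcases hpq with h0 | h0
        · rw [hq, mul_zero, add_zero]
          exact h0
        · exact absurd hq h0
      · exact Or.inr (mul_ne_zero hl0 hq))
    rw [← e]
    congr 1
    · ring
    · ring

private lemma Tw_Gi (p : ℕ) (ls : List ℕ) (r : ℕ) (G : ℤ → ℤ → ℤ) :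
    Tw 2 ls (Gi p r G) = Gi p r (Tw (2 * (p : ℤ) ^ r) ls G) := by
  induction ls with
  | nil => rfl
  | cons l ls ih => rw [Tw, Tw, ih, Tl_Gi]

private lemma homog_Tw {p : ℕ} {G : ℤ → ℤ → ℤ} (h : Homog G) (m : ℤ) (ls : List ℕ) (hl : OkE p ls) :
    Homog (Tw m ls G) := by
  induction ls with
  | nil => exact h
  | cons l ls ih =>
    rw [Tw]
    exact homog_Tl l (hl l List.mem_cons_self).1.pos m
      (ih fun l' hl' => hl l' (List.mem_cons_of_mem _ hl'))

private lemma evw_Gi {p : ℕ} (hp : 0 < p) {r s : ℕ} {G : ℤ → ℤ → ℤ} (hG : SymE p r s G) (ls : List ℕ)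
    (hl : OkE p ls) : evw 2 ls (Gi p r G) = evw (2 * (p : ℤ) ^ r) ls G := by
  unfold evw
  rw [Tw_Gi]
  have e := homog_Tw hG.1 (2 * (p : ℤ) ^ r) ls hl ((p : ℤ) ^ r) 1 0 (ppos hp r) (Or.inl one_ne_zero)
  rw [mul_zero] at e
  simp only [Gi]
  rw [mul_zero, e]

theorem evc_Gi {p : ℕ} (hp : 0 < p) {r s : ℕ} {G : ℤ → ℤ → ℤ} (hG : SymE p r s G)
    (C : List (ℤ × List ℕ)) (hC : OkCE p C) : evc 2 C (Gi p r G) = evc (2 * (p : ℤ) ^ r) C G := by
  unfold evc
  congr 1
  refine List.map_congr_left fun c hc => ?_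
  rw [evw_Gi hp hG c.2 (hC c hc)]

/-! ### word operators -/

/-- Operators given by the same integer combination of words for all groups. -/
def WO (p : ℕ) (A : ∀ (R : Type) [AddCommGroup R], ℤ → (ℤ → ℤ → R) → (ℤ → ℤ → R)) : Prop :=
  ∃ C : List (ℤ × List ℕ), OkCE p C ∧ ∀ (R : Type) [AddCommGroup R] (m : ℤ) (G : ℤ → ℤ → R)
    (x y : ℤ), A R m G x y = (C.map fun c => c.1 • Tw m c.2 G x y).sum

theorem wo_id (p : ℕ) : WO p (fun _ _ _ G => G) := by
  refine ⟨[(1, [])], ?_, ?_⟩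
  · intro c hc l hl
    rw [List.mem_singleton] at hc
    rw [hc] at hl
    exact absurd hl (by simp)
  · intro R _ m G x y
    simp [Tw]

theorem wo_add {p : ℕ} {A B : ∀ (R : Type) [AddCommGroup R], ℤ → (ℤ → ℤ → R) → (ℤ → ℤ → R)}
    (hA : WO p A) (hB : WO p B) : WO p (fun R _ m G => A R m G + B R m G) := by
  obtain ⟨C, hC, h1⟩ := hA
  obtain ⟨D, hD, h2⟩ := hB
  refine ⟨C ++ D, ?_, ?_⟩
  · intro c hc
    rcases List.mem_append.1 hc with h | h
    · exact hC c h
    · exact hD c h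
  · intro R _ m G x y
    rw [List.map_append, List.sum_append, ← h1, ← h2]
    rfl

theorem wo_smul {p : ℕ} (n : ℤ) {A : ∀ (R : Type) [AddCommGroup R], ℤ → (ℤ → ℤ → R) → (ℤ → ℤ → R)}
    (hA : WO p A) : WO p (fun R _ m G => n • A R m G) := by
  obtain ⟨C, hC, h1⟩ := hA
  refine ⟨C.map fun c => (n * c.1, c.2), ?_, ?_⟩
  · intro c hc
    obtain ⟨d, hd, rfl⟩ := List.mem_map.1 hc
    exact hC d hd
  · intro R _ m G x y
    have h := h1 R m G x y
    show n • A R m G x y = _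
    rw [h, List.map_map]
    clear h h1 hC
    induction C with
    | nil => simp
    | cons c C ih =>
      rw [List.map_cons, List.map_cons, List.sum_cons, List.sum_cons, smul_add, ih]
      simp only [Function.comp_apply]
      rw [mul_smul]

theorem wo_neg {p : ℕ} {A : ∀ (R : Type) [AddCommGroup R], ℤ → (ℤ → ℤ → R) → (ℤ → ℤ → R)}
    (hA : WO p A) : WO p (fun R _ m G => -A R m G) := by
  have h := wo_smul (-1) hA
  simp only [neg_smul, one_smul] at h
  exact h

theorem wo_sub {p : ℕ} {A B : ∀ (R : Type) [AddCommGroup R], ℤ → (ℤ → ℤ → R) → (ℤ → ℤ → R)}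
    (hA : WO p A) (hB : WO p B) : WO p (fun R _ m G => A R m G - B R m G) := by
  have h := wo_add hA (wo_neg hB)
  simp only [← sub_eq_add_neg] at h
  exact h

theorem wo_Tl {p : ℕ} (l : ℕ) (hl : l.Prime) (hlp : l ≠ p) (hl2 : l ≠ 2)
    {A : ∀ (R : Type) [AddCommGroup R], ℤ → (ℤ → ℤ → R) → (ℤ → ℤ → R)}
    (hA : WO p A) : WO p (fun R _ m G => Tl l m (A R m G)) := by
  obtain ⟨C, hC, h1⟩ := hA
  refine ⟨C.map fun c => (c.1, l :: c.2), ?_, ?_⟩
  · intro c hc
    obtain ⟨d, hd, rfl⟩ := List.mem_map.1 hc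
    intro l' hl'
    rcases List.mem_cons.1 hl' with h | h
    · rw [h]
      exact ⟨hl, hlp, hl2⟩
    · exact hC d hd l' h
  · intro R _ m G x y
    rw [List.map_map]
    show A R m G (l * x) y + ∑ j ∈ Finset.range l, A R m G (x + m * j * y) (l * y) = _
    have e : ∀ x y : ℤ, A R m G x y = (C.map fun c => c.1 • Tw m c.2 G x y).sum := h1 R m G
    simp only [e]
    clear e h1 hC
    induction C with
    | nil => simp
    | cons c C ih =>
      simp only [List.map_cons, List.sum_cons, Finset.sum_add_distrib] at ih ⊢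
      rw [← ih]
      simp only [Function.comp_apply, Tw, Tl, smul_add, Finset.smul_sum]
      abel

theorem wo_iter {p : ℕ} {B : ∀ (R : Type) [AddCommGroup R], ℤ → (ℤ → ℤ → R) → (ℤ → ℤ → R)}
    (hB : ∀ A : ∀ (R : Type) [AddCommGroup R], ℤ → (ℤ → ℤ → R) → (ℤ → ℤ → R), WO p A →
      WO p (fun R _ m G => B R m (A R m G)))
    {A : ∀ (R : Type) [AddCommGroup R], ℤ → (ℤ → ℤ → R) → (ℤ → ℤ → R)} (hA : WO p A) (i : ℕ) :
    WO p (fun R _ m G => (B R m)^[i] (A R m G)) := by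
  induction i with
  | zero => exact hA
  | succ i ih =>
    have h := hB _ ih
    simp only [← Function.iterate_succ_apply'] at h
    exact h

/-- The value `A G ∞ - A G 0` is an integer combination of values at words. -/
theorem wo_ev {p : ℕ} {A : ∀ (R : Type) [AddCommGroup R], ℤ → (ℤ → ℤ → R) → (ℤ → ℤ → R)}
    (hA : WO p A) : ∃ C : List (ℤ × List ℕ), OkCE p C ∧
    ∀ (R : Type) [AddCommGroup R] (m : ℤ) (G : ℤ → ℤ → R), A R m G 1 0 - A R m G 0 1 = evc m C G := by
  obtain ⟨C, hC, h⟩ := hA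
  refine ⟨C, hC, ?_⟩
  intro R _ m G
  unfold evc evw
  have h10 : A R m G 1 0 = _ := h R m G 1 0
  have h01 : A R m G 0 1 = _ := h R m G 0 1
  rw [h10, h01]
  clear h10 h01 h hC
  induction C with
  | nil => simp
  | cons c C ih =>
    rw [List.map_cons, List.map_cons, List.map_cons, List.sum_cons, List.sum_cons,
      List.sum_cons, ← ih, smul_sub]
    abel

/-! ### the determinant -/

/-- A matrix which is triangular modulo the prime `p` for a triple of keys has determinant prime to `p`. -/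
theorem unit_det {p : ℕ} (hp : p.Prime) {ι : Type} [Fintype ι] [DecidableEq ι] (k1 k2 k3 : ι → ℕ)
    (hinj : ∀ t u, k1 t = k1 u → k2 t = k2 u → k3 t = k3 u → t = u) (M : Matrix ι ι ℤ)
    (hd : ∀ t, ((M t t : ℤ) : ZMod p) ≠ 0)
    (hM : ∀ t u, ((M t u : ℤ) : ZMod p) ≠ 0 →
      k1 u < k1 t ∨ (k1 u = k1 t ∧ k3 u = k3 t ∧ k2 u ≤ k2 t)) :
    ((M.det : ℤ) : ZMod p) ≠ 0 := by
  have : Fact (Nat.Prime p) := ⟨hp⟩
  intro h0
  have h1 : (M.map (fun x : ℤ => (x : ZMod p))).det = 0 := by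
    have := Int.cast_det (R := ZMod p) M
    rw [h0] at this
    exact this.symm
  obtain ⟨v, hv, hz⟩ := Matrix.exists_vecMul_eq_zero_iff.2 h1
  have hne : (Finset.univ.filter fun t => v t ≠ 0).Nonempty := by
    by_contra hc
    rw [Finset.not_nonempty_iff_eq_empty, Finset.filter_eq_empty_iff] at hc
    apply hv
    funext t
    simpa using hc (Finset.mem_univ t)
  obtain ⟨t0, ht0, hmax⟩ := Finset.exists_max_image _ (fun t => (toLex (k1 t, k2 t) : ℕ ×ₗ ℕ)) hne
  have hz0 := congrFun hz t0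
  rw [Matrix.vecMul, dotProduct] at hz0
  rw [Finset.sum_eq_single t0] at hz0
  · simp only [Matrix.map_apply, Pi.zero_apply] at hz0
    rcases mul_eq_zero.1 hz0 with h | h
    · exact (Finset.mem_filter.1 ht0).2 h
    · exact hd t0 h
  · intro t _ htn
    by_cases hvt : v t = 0
    · rw [hvt, zero_mul]
    · by_cases hm : ((M t t0 : ℤ) : ZMod p) = 0
      · simp only [Matrix.map_apply, hm, mul_zero]
      · exfalso
        have h2 := hmax t (Finset.mem_filter.2 ⟨Finset.mem_univ _, hvt⟩)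
        simp only [Prod.Lex.le_iff, ofLex_toLex] at h2
        have h3 := hM t t0 hm
        apply htn
        apply hinj
        · omega
        · omega
        · omega
  · intro h
    exact absurd (Finset.mem_univ _) h

end Pool.Agent.Helper76.TL.Wo
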